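import Pool.Agent.Helper5.KPA.StN

/-!
# PROJECT KP, module ATD: transcendence degrees
-/

set_option autoImplicit false

namespace Pool.Agent.Helper22.KPA

open Pool.Agent.Helper5.KPA Pool.Agent.Helper52.KP MvPolynomial

/-- elements of the graded pieces are integral over a Noether normalization -/
lemma atd_int {S : Type} [CommRing S] [IsDomain S] [Algebra ℂ S] {G : ℕ → Submodule ℂ S}
    (hG : GrA G) {e : ℕ} {a : Fin e → S} (hN : NN G a) (i : ℕ) (b : S) (hb : b ∈ G i) :
    IsIntegral (Algebra.adjoin ℂ (Set.range a)) b := by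
  classical
  obtain ⟨D, hD⟩ := hN.fg
  obtain ⟨B, hB⟩ : ∃ B : Subalgebra ℂ S, B = Algebra.adjoin ℂ (Set.range a) := ⟨_, rfl⟩
  rw [← hB]
  have haB : ∀ j, a j ∈ B := fun j => hB ▸ Algebra.subset_adjoin (Set.mem_range_self j)
  -- the module spanned by the small degrees
  obtain ⟨N, hNdef⟩ : ∃ N : Submodule B S, N = Submodule.span B (⋃ k ∈ Finset.range (D + 1),
      (G k : Set S)) := ⟨_, rfl⟩
  have hle : ∀ k ≤ D, ∀ x ∈ G k, x ∈ N := by
    intro k hk x hx
    rw [hNdef]
    apply Submodule.subset_span
    simp only [Set.mem_iUnion, Finset.mem_range]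
    exact ⟨k, by omega, hx⟩
  have hall : ∀ k, ∀ x ∈ G k, x ∈ N := by
    intro k
    induction k with
    | zero => exact hle 0 (Nat.zero_le _)
    | succ k ih =>
      intro x hx
      by_cases hk : k + 1 ≤ D
      · exact hle _ hk x hx
      · obtain ⟨y, hy, hxy⟩ := hD k (by omega) x hx
        rw [hxy]
        refine Submodule.sum_mem _ fun j _ => ?_
        have := N.smul_mem (⟨a j, haB j⟩ : B) (ih (y j) (hy j))
        exact this
  have hfg : N.FG := by
    have h1 : ∀ k, ∃ T : Finset S, Submodule.span ℂ (T : Set S) = G k := by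
      intro k
      have := hG.fd k
      exact (Submodule.fg_iff_finiteDimensional (G k)).2 this
    choose T hT using h1
    refine ⟨(Finset.range (D + 1)).biUnion T, ?_⟩
    rw [hNdef]
    apply le_antisymm
    · rw [Submodule.span_le]
      intro x hx
      rw [Finset.mem_coe, Finset.mem_biUnion] at hx
      obtain ⟨k, hk, hx⟩ := hx
      apply Submodule.subset_span
      simp only [Set.mem_iUnion]
      refine ⟨k, hk, ?_⟩
      rw [← hT k]
      exact Submodule.subset_span hx
    · rw [Submodule.span_le]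
      intro x hx
      simp only [Set.mem_iUnion] at hx
      obtain ⟨k, hk, hx⟩ := hx
      rw [SetLike.mem_coe, ← hT k] at hx
      have h2 : Submodule.span ℂ (T k : Set S) ≤
          (Submodule.span B (((Finset.range (D + 1)).biUnion T : Finset S) : Set S)).restrictScalars
            ℂ := by
        rw [Submodule.span_le]
        intro t ht
        apply Submodule.subset_span
        rw [Finset.mem_coe, Finset.mem_biUnion]
        exact ⟨k, hk, ht⟩
      exact h2 hx
  have hone : (1 : S) ∈ N := by
    apply hle 0 (Nat.zero_le _)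
    rw [hG.zero]
    exact Submodule.mem_span_singleton_self 1
  have hne : N ≠ ⊥ := by
    intro h0
    rw [h0, Submodule.mem_bot] at hone
    exact one_ne_zero hone
  refine isIntegral_of_smul_mem_submodule N hne hfg b ?_
  intro n hn
  rw [smul_eq_mul]
  have hmul : ∀ x ∈ (⋃ k ∈ Finset.range (D + 1), (G k : Set S)), b * x ∈ N := by
    intro x hx
    simp only [Set.mem_iUnion] at hx
    obtain ⟨k, hk, hx⟩ := hx
    exact hall (i + k) _ (hG.mul i k b x hb hx)
  rw [hNdef] at hn
  induction hn using Submodule.span_induction with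
  | mem x hx => exact hmul x hx
  | zero => rw [mul_zero]; exact N.zero_mem
  | add x y _ _ hx hy => rw [mul_add]; exact N.add_mem hx hy
  | smul c x _ hx =>
    have := N.smul_mem c hx
    rw [mul_smul_comm]
    exact this

lemma atd_nonempty {C : Cone} (hC : Good C) : ∃ z, z ∈ C.U := by
  by_contra hcon
  push Not at hcon
  apply hC.Δ0
  apply MvPolynomial.funext
  intro z
  have := hcon z
  unfold Cone.U at this
  have h1 : ev C.Δ z = 0 := by
    by_contra h2
    exact this h2
  rw [map_zero]
  exact h1

lemma atd_pow {C : Cone} (hC : Good C) {k : ℕ} {x : MvPolynomial (Fin C.m) ℂ} (hx : x ∈ C.R k)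
    (b : ℕ) : x ^ b ∈ C.R (b * k) := by
  induction b with
  | zero => rw [pow_zero, Nat.zero_mul]; exact hC.one
  | succ b ih =>
    rw [pow_succ, add_mul, one_mul]
    exact hC.mul _ _ _ _ ih hx

/-- the coordinates are algebraic -/
lemma atd_coord {C : Cone} (hC : Good C) {r : ℕ} (hr : 0 < r) {S : Type} [CommRing S] [IsDomain S]
    [Algebra ℂ S] {G : ℕ → Submodule ℂ S} (hG : GrA G) {e : ℕ} {a : Fin e → S} (hN : NN G a)
    (ι : MvPolynomial (Fin C.m) ℂ →ₐ[ℂ] S) (hι : Function.Injective ι)
    (hιG : ∀ k, ∀ x ∈ RD C r k, ι x ∈ G k) (p : MvPolynomial (Fin C.m) ℂ) :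
    IsAlgebraic (Algebra.adjoin ℂ (Set.range a)) (ι p) := by
  have hX : ∀ j, IsAlgebraic (Algebra.adjoin ℂ (Set.range a)) (ι (X j)) := by
    intro j
    obtain ⟨α, hα⟩ := hC.crd j
    have hd : 0 < C.n * r := Nat.mul_pos hC.hn hr
    obtain ⟨z, hz⟩ := atd_nonempty hC
    have hp0 : C.p₁ ≠ 0 := by
      intro h0
      have := hC.p10 z hz
      rw [h0] at this
      exact this (map_zero _)
    have h1 : IsAlgebraic (Algebra.adjoin ℂ (Set.range a)) (ι (C.p₁ ^ (C.n * r * α))) := by
      apply IsIntegral.isAlgebraic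
      apply atd_int hG hN (α * C.d₁)
      apply hιG
      have := atd_pow hC hC.p1R (C.n * r * α)
      unfold RD
      rwa [mul_assoc] at this
    have h2 : IsAlgebraic (Algebra.adjoin ℂ (Set.range a))
        (ι ((X j * C.p₁ ^ α) ^ (C.n * r))) := by
      apply IsIntegral.isAlgebraic
      apply atd_int hG hN (α * C.d₁ + C.w j)
      apply hιG
      exact atd_pow hC hα (C.n * r)
    have h3 : ι ((X j * C.p₁ ^ α) ^ (C.n * r)) =
        ι (C.p₁ ^ (C.n * r * α)) * (ι (X j)) ^ (C.n * r) := by
      rw [← map_pow, ← map_mul]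
      congr 1
      rw [mul_pow, ← pow_mul, mul_comm α]
      ring
    rw [h3] at h2
    have h4 : ι (C.p₁ ^ (C.n * r * α)) ∈ nonZeroDivisors S := by
      rw [mem_nonZeroDivisors_iff_ne_zero]
      intro h0
      rw [← map_zero ι] at h0
      exact pow_ne_zero _ hp0 (hι h0)
    exact IsAlgebraic.of_pow hd (IsAlgebraic.of_mul h4 h1 h2)
  induction p using MvPolynomial.induction_on with
  | C c =>
    have : ι (MvPolynomial.C c) =
        algebraMap (Algebra.adjoin ℂ (Set.range a)) S (algebraMap ℂ _ c) := by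
      rw [← MvPolynomial.algebraMap_eq, AlgHom.commutes]
      rfl
    rw [this]
    exact isAlgebraic_algebraMap _
  | add p q hp hq => rw [map_add]; exact hp.add hq
  | mul_X p j hp => rw [map_mul]; exact hp.mul (hX j)

theorem hATD (hAGR : StAGR) : StATD := by
  intro C hC r F hF
  obtain ⟨hB, hR, hFR, -⟩ := hAGR C hC r F hF
  have hr := hF.hr
  have hd : 0 < C.n * r := Nat.mul_pos hC.hn hr
  constructor
  · intro e a hN
    have hι : ∀ k, ∀ x ∈ RD C r k, (Polynomial.CAlgHom : MvPolynomial (Fin C.m) ℂ →ₐ[ℂ]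
        QQ C.m) x ∈ BB F k := by
      intro k x hx l
      rw [Polynomial.CAlgHom_apply, Polynomial.coeff_C]
      split_ifs with hl
      · subst hl
        rw [hF.zero k]
        exact hx
      · exact (F k l).zero_mem
    have hinj : Function.Injective (Polynomial.CAlgHom : MvPolynomial (Fin C.m) ℂ →ₐ[ℂ]
        QQ C.m) := by
      intro x y hxy
      rw [Polynomial.CAlgHom_apply, Polynomial.CAlgHom_apply] at hxy
      exact Polynomial.C_injective hxy
    have hco := atd_coord hC hr hB hN Polynomial.CAlgHom hinj hι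
    -- a nonzero element of degree one
    obtain ⟨s, hs, hs0⟩ : ∃ s ∈ RD C r 1, s ≠ 0 := by
      obtain ⟨z, hz⟩ := atd_nonempty hC
      obtain ⟨i₀, hi₀⟩ : ∃ i₀, ev (C.X i₀) z ≠ 0 := by
        by_contra hcon
        push Not at hcon
        have h1 := hC.Xpos z hz
        unfold Cone.sz at h1
        simp [hcon] at h1
      refine ⟨C.X i₀ ^ (C.n * r), ?_, ?_⟩
      · exact atd_pow hC (hC.XR i₀) (C.n * r)
      · apply pow_ne_zero
        intro h0
        rw [h0] at hi₀
        exact hi₀ (map_zero _)
    have hτ : IsAlgebraic (Algebra.adjoin ℂ (Set.range a)) (Polynomial.X : QQ C.m) := by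
      have h1 : IsAlgebraic (Algebra.adjoin ℂ (Set.range a)) (Polynomial.C s * Polynomial.X :
          QQ C.m) := by
        apply IsIntegral.isAlgebraic
        apply atd_int hB hN 1
        intro l
        rw [Polynomial.coeff_C_mul, Polynomial.coeff_X]
        split_ifs with hl
        · rw [← hl, mul_one, hFR 1 1 le_rfl]
          exact hs
        · rw [mul_zero]
          exact (F 1 l).zero_mem
      have h2 : (Polynomial.C s : QQ C.m) ∈ nonZeroDivisors (QQ C.m) := by
        rw [mem_nonZeroDivisors_iff_ne_zero]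
        exact Polynomial.C_ne_zero.2 hs0
      exact IsAlgebraic.of_mul h2 (hco s) h1
    have halg : Algebra.IsAlgebraic (Algebra.adjoin ℂ (Set.range a)) (QQ C.m) := by
      constructor
      intro x
      induction x using Polynomial.induction_on with
      | C p => exact hco p
      | add p q hp hq => exact hp.add hq
      | monomial n p _ => exact (hco p).mul (hτ.pow (n + 1))
    have hb := hN.ai.isTranscendenceBasis_iff_isAlgebraic.2 halg
    have h1 := hb.cardinalMk_eq_trdeg
    have h2 : Algebra.trdeg ℂ (QQ C.m) = Algebra.trdeg ℂ (MvPolynomial (Fin (C.m + 1)) ℂ) :=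
      (toM C.m).trdeg_eq
    rw [h2, MvPolynomial.trdeg_of_isDomain] at h1
    simp only [Cardinal.mk_fin, Cardinal.lift_natCast] at h1
    exact_mod_cast h1
  · intro e a hN
    have hco := atd_coord hC hr hR hN (AlgHom.id ℂ _) (fun _ _ h => h) (fun _ _ h => h)
    have halg : Algebra.IsAlgebraic (Algebra.adjoin ℂ (Set.range a))
        (MvPolynomial (Fin C.m) ℂ) := ⟨fun x => hco x⟩
    have hb := hN.ai.isTranscendenceBasis_iff_isAlgebraic.2 halg
    have h1 := hb.cardinalMk_eq_trdeg
    rw [MvPolynomial.trdeg_of_isDomain] at h1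
    simp only [Cardinal.mk_fin, Cardinal.lift_natCast] at h1
    exact_mod_cast h1

end Pool.Agent.Helper22.KPA
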