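import Pool.Agent.Helper85.KPA.StC

set_option autoImplicit false

namespace Pool.Agent.Helper22.KPA

open Pool.Agent.Helper85.KPA Pool.Agent.Helper5.KPA Pool.Agent.Helper52.KP MvPolynomial
open MeasureTheory

private theorem cbd_diff {m : ℕ} (P : MvPolynomial (Fin m) ℂ) :
    Differentiable ℂ fun z : Fin m → ℂ => ev P z := by
  induction P using MvPolynomial.induction_on with
  | C a => simpa [ev] using differentiable_const (𝕜 := ℂ) (E := Fin m → ℂ) a
  | add p q hp hq =>
    have : (fun z : Fin m → ℂ => ev (p + q) z) = fun z => ev p z + ev q z := by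
      funext z; simp [ev]
    rw [this]
    exact hp.add hq
  | mul_X p j hp =>
    have : (fun z : Fin m → ℂ => ev (p * MvPolynomial.X j) z) = fun z => ev p z * z j := by
      funext z; simp [ev]
    rw [this]
    exact hp.mul (differentiable_apply j)

theorem hCBD : StMOM → StNUL → StCDN → StCBD := by
  intro hMOM hNUL _ C hC k f hf hB
  obtain ⟨B, hB⟩ := hB
  obtain ⟨a, b, _, hab⟩ := hC.ubd
  -- the domain is measurable and has a null complement
  have hUae : ∀ᵐ z : Fin C.m → ℂ, z ∈ C.U := by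
    rw [MeasureTheory.ae_iff]
    have e : {z : Fin C.m → ℂ | ¬ z ∈ C.U} = {z | ev C.Δ z = 0} := by
      ext z
      simp [Cone.U]
    rw [e]
    exact hNUL C.m C.Δ hC.Δ0
  have hrest : (volume : Measure (Fin C.m → ℂ)).restrict C.U = volume :=
    Measure.restrict_eq_self_of_ae_mem hUae
  have hcJ : Continuous fun z : Fin C.m → ℂ => ev C.J z := MvPolynomial.continuous_eval _
  have hcf : Continuous fun z : Fin C.m → ℂ => ev f z := MvPolynomial.continuous_eval _
  have hcs : Continuous fun z : Fin C.m → ℂ => C.sz z := by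
    unfold Cone.sz
    exact continuous_finsetSum _ fun i _ => (MvPolynomial.continuous_eval (C.X i)).norm
  have hint : Integrable fun z : Fin C.m → ℂ =>
      ‖ev f z * ev C.J z‖ ^ 2 * Real.exp (-(b * C.sz z)) := by
    have h3 := (hMOM C hC).2.2.1 (2 * k)
    rw [IntegrableOn, hrest] at h3
    refine Integrable.mono' (h3.const_mul (B ^ 2)) ?_ ?_
    · exact (((hcf.mul hcJ).norm.pow 2).mul
        (Real.continuous_exp.comp (continuous_const.mul hcs).neg)).aestronglyMeasurable
    · filter_upwards [hUae] with z hz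
      have h1 := hB z hz
      have h2 := (hab z hz).2
      have hn : 0 ≤ ‖ev f z * ev C.J z‖ ^ 2 * Real.exp (-(b * C.sz z)) := by positivity
      rw [Real.norm_of_nonneg hn, norm_mul, mul_pow]
      have h4 : ‖ev f z‖ ^ 2 ≤ B ^ 2 * C.sz z ^ (2 * k) := by
        have : ‖ev f z‖ ^ 2 ≤ (B * C.sz z ^ k) ^ 2 := pow_le_pow_left₀ (norm_nonneg _) h1 2
        calc ‖ev f z‖ ^ 2 ≤ (B * C.sz z ^ k) ^ 2 := this
          _ = B ^ 2 * C.sz z ^ (2 * k) := by ring
      have h5 : Real.exp (-(b * C.sz z)) ≤ Real.exp (-C.u z) := Real.exp_le_exp.2 (by linarith)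
      have h6 : 0 < C.sz z := hC.Xpos z hz
      have h7 : 0 ≤ B ^ 2 * C.sz z ^ (2 * k) * ‖ev C.J z‖ ^ 2 := by positivity
      calc ‖ev f z‖ ^ 2 * ‖ev C.J z‖ ^ 2 * Real.exp (-(b * C.sz z))
          ≤ (B ^ 2 * C.sz z ^ (2 * k)) * ‖ev C.J z‖ ^ 2 * Real.exp (-C.u z) := by
            gcongr
        _ = B ^ 2 * (C.sz z ^ (2 * k) * Real.exp (-C.u z) * ‖ev C.J z‖ ^ 2) := by ring
  obtain ⟨f', hf', he⟩ := hC.extd k (fun z => ev f z * ev C.J z) ((cbd_diff f).mul (cbd_diff C.J))
    (by
      intro c z _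
      simp only [hf c z, hC.Jhom c z, pow_add]
      ring)
    ⟨b, hint⟩
  have hpoly : f * C.J = f' * C.J := by
    apply MvPolynomial.funext
    intro z
    have := he z
    simpa [ev] using this
  have hJ0 : C.J ≠ 0 := by
    intro h0
    obtain ⟨z, hz⟩ : ∃ z : Fin C.m → ℂ, ev C.Δ z ≠ 0 := by
      by_contra hcon
      push Not at hcon
      apply hC.Δ0
      apply MvPolynomial.funext
      intro z
      simpa [ev] using hcon z
    apply hC.J0 z hz
    simp [ev, h0]
  have : f = f' := mul_right_cancel₀ hJ0 hpoly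
  rw [this]
  exact hf'

end Pool.Agent.Helper22.KPA
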